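import Pool.Agent.Helper339_Schur.LogExc

set_option autoImplicit false

/-!
# `t(j) ≥ s(j)^(1-ε)` for all but `O(log n)` of the indices `j ≤ n`
-/

namespace Pool.Agent.Results.MP_43d3f2_co.FewExceptions

open Pool.Agent.Helper339_Schur

/-- For every `ε > 0` there is `C` such that for all `n ≥ 2` at most `C log n` of the indices
`1 ≤ j ≤ n` satisfy `t(j) < s(j)^(1-ε)`. -/
theorem result : ∀ ε : ℝ, 0 < ε → ∃ C : ℝ, ∀ n : ℕ, 2 ≤ n →
    (((Finset.Icc 1 n).filter fun j => (t j : ℝ) < (s j : ℝ) ^ (1 - ε)).card : ℝ) ≤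
      C * Real.log n :=
  fun ε h => log_exceptions ε h

end Pool.Agent.Results.MP_43d3f2_co.FewExceptions
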