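import Pool.Agent.Helper339_Schur.InfOften

set_option autoImplicit false

/-!
# Infinitely often `s(n)` exceeds `t(n)` by at most a factor of order `n`
-/

namespace Pool.Agent.Results.MP_43d3f2_co.LinearFactor

open Pool.Agent.Helper339_Schur

/-- There are infinitely many `n` with `3 s(n) ≤ (n+1) (t(n)+1)`. -/
theorem result : ∀ n0 : ℕ, ∃ n : ℕ, n0 ≤ n ∧ 3 * s n ≤ (n + 1) * (t n + 1) :=
  inf_often

end Pool.Agent.Results.MP_43d3f2_co.LinearFactor
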