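import Pool.Agent.Helper339_Schur.Basic

set_option autoImplicit false

/-!
# `3 s(n) - 1 ≤ t(n+1)`: one more colour makes every ordinary Schur colouring modular

`s n` and `t n` are defined (in `Pool.Agent.Helper339_Schur.Basic`) by the very sets whose infima
appear in the frozen statement of the problem.
-/

namespace Pool.Agent.Results.MP_43d3f2_co.OneMoreColour

open Pool.Agent.Helper339_Schur

/-- For every `n ≥ 1` the modular Schur number of `n + 1` classes is at least `3 s(n) - 1`, where
`s(n)` is the ordinary Schur number. -/
theorem result : ∀ n : ℕ, 1 ≤ n → 3 * s n ≤ t (n + 1) + 1 :=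
  three_mul_s_le

end Pool.Agent.Results.MP_43d3f2_co.OneMoreColour
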