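import Pool.Agent.Helper339_Schur.Limit

set_option autoImplicit false

/-!
# The ordinary and the modular Schur numbers have the same exponential growth rate
-/

namespace Pool.Agent.Results.MP_43d3f2_co.SameGrowth

open Pool.Agent.Helper339_Schur Filter Topology
open scoped ENNReal

/-- There is one `L` in `[0, ∞]` with `s(n)^(1/n) → L` and `t(n)^(1/n) → L`. -/
theorem result : ∃ L : ℝ≥0∞,
    Tendsto (fun n : ℕ => ((s n : ℝ≥0∞)) ^ (1 / (n : ℝ))) atTop (𝓝 L) ∧
    Tendsto (fun n : ℕ => ((t n : ℝ≥0∞)) ^ (1 / (n : ℝ))) atTop (𝓝 L) :=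
  same_growth

end Pool.Agent.Results.MP_43d3f2_co.SameGrowth
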